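import Pool.Agent.H840.MX.Stm

/-!
# Forms of degree at least eleven through twelve common zeros of a cubic and a quartic
-/

set_option autoImplicit false

namespace Pool.Agent.H549.MX

open MvPolynomial Pool.Agent.T2H40.MI Pool.Agent.H840.MX

/-- The dimension of the space of the forms of degree `n`. -/
theorem finrank_hom (n : ℕ) :
    Module.finrank ℂ (homogeneousSubmodule (Fin 3) ℂ n) = (n + 2).choose 2 := by
  rw [homogeneousSubmodule_eq_finsupp_supported]
  rw [(AddMonoidAlgebra.supportedEquivFinsupp (R := ℂ) (S := ℂ)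
    {d : Fin 3 →₀ ℕ | d.degree = n}).finrank_eq]
  have h1 : {d : Fin 3 →₀ ℕ | d.degree = n} =
      ((Finset.univ.finsuppAntidiag n : Finset (Fin 3 →₀ ℕ)) : Set (Fin 3 →₀ ℕ)) := by
    ext d
    simp [Finsupp.degree_eq_sum]
  rw [h1]
  have h2 : Module.finrank ℂ
      (((Finset.univ.finsuppAntidiag n : Finset (Fin 3 →₀ ℕ)) : Set (Fin 3 →₀ ℕ)) →₀ ℂ) =
      Fintype.card ((Finset.univ.finsuppAntidiag n : Finset (Fin 3 →₀ ℕ)) : Set (Fin 3 →₀ ℕ)) :=
    Module.finrank_finsupp_self ℂ
  rw [h2]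
  have h3 := Finset.card_finsuppAntidiag_nat_eq_choose (s := (Finset.univ : Finset (Fin 3))) n
  simp only [Finset.coe_sort_coe, Fintype.card_coe]
  rw [h3, Finset.card_univ, Fintype.card_fin]
  have h4 : 3 + n - 1 = n + 2 := by omega
  rw [h4]
  have h5 := Nat.choose_symm (n := n + 2) (k := n) (by omega)
  rw [← h5]
  congr 1
  omega

instance finite_hom (n : ℕ) : FiniteDimensional ℂ (homogeneousSubmodule (Fin 3) ℂ n) :=
  Module.finite_of_finrank_pos (by rw [finrank_hom]; exact Nat.choose_pos (by omega))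

/-- A linear form which separates two points of the plane. -/
theorem exists_lin {p q : Fin 3 → ℂ} (hp : p ≠ 0) (hq : ∀ t : ℂ, q ≠ t • p) :
    ∃ r : Fin 3 → ℂ, r ⬝ᵥ p = 0 ∧ r ⬝ᵥ q ≠ 0 := by
  by_contra hcon
  push Not at hcon
  obtain ⟨k, hk⟩ := Function.ne_iff.1 hp
  apply hq (q k / p k)
  funext l
  have h1 := hcon (p k • Pi.single l 1 - p l • Pi.single k 1) (by
    rw [sub_dotProduct, smul_dotProduct, smul_dotProduct, single_one_dotProduct,
      single_one_dotProduct]
    simp only [smul_eq_mul]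
    ring)
  rw [sub_dotProduct, smul_dotProduct, smul_dotProduct, single_one_dotProduct,
    single_one_dotProduct] at h1
  simp only [smul_eq_mul] at h1
  rw [Pi.smul_apply, smul_eq_mul]
  have hk' : p k ≠ 0 := hk
  field_simp
  linear_combination h1

/-- A form of degree `d ≥ 11` which vanishes at all of the twelve points except one. -/
theorem exists_form {Q : Fin 12 → Fin 3 → ℂ} (hne : ∀ i, Q i ≠ 0)
    (hdiff : ∀ i j, i ≠ j → ∀ t : ℂ, Q i ≠ t • Q j) {d : ℕ} (hd : 11 ≤ d) (i : Fin 12) :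
    ∃ f : S, f.IsHomogeneous d ∧ (∀ j, j ≠ i → eval (Q j) f = 0) ∧ eval (Q i) f ≠ 0 := by
  have h1 : ∀ j, ∃ r : Fin 3 → ℂ, j ≠ i → (r ⬝ᵥ Q j = 0 ∧ r ⬝ᵥ Q i ≠ 0) := by
    intro j
    by_cases hj : j = i
    · exact ⟨0, fun h => absurd hj h⟩
    · obtain ⟨r, hr⟩ := exists_lin (hne j) (hdiff i j (Ne.symm hj))
      exact ⟨r, fun _ => hr⟩
  choose r hr using h1
  obtain ⟨k, hk⟩ := Function.ne_iff.1 (hne i)
  refine ⟨(∏ j ∈ Finset.univ.erase i, lin (r j)) * X k ^ (d - 11), ?_, ?_, ?_⟩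
  · have h2 : (∏ j ∈ Finset.univ.erase i, lin (r j)).IsHomogeneous
        (∑ j ∈ Finset.univ.erase i, 1) := IsHomogeneous.prod _ _ _ fun j _ => lin_hom _
    have h3 : (∑ j ∈ Finset.univ.erase i, 1) = 11 := by
      rw [Finset.sum_const, Finset.card_erase_of_mem (Finset.mem_univ _), Finset.card_univ,
        Fintype.card_fin]
      rfl
    rw [h3] at h2
    have h4 := h2.mul (isHomogeneous_X_pow (R := ℂ) k (d - 11))
    have h5 : 11 + (d - 11) = d := by omega
    rwa [h5] at h4
  · intro j hj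
    rw [map_mul, map_prod, Finset.prod_eq_zero (i := j)]
    · rw [zero_mul]
    · exact Finset.mem_erase.2 ⟨hj, Finset.mem_univ _⟩
    · rw [eval_lin]
      exact (hr j hj).1
  · rw [map_mul, map_prod, map_pow, eval_X]
    refine mul_ne_zero (Finset.prod_ne_zero_iff.2 fun j hj => ?_) (pow_ne_zero _ hk)
    rw [eval_lin]
    exact (hr j (Finset.ne_of_mem_erase hj)).2

/-- The evaluation at the points. -/
noncomputable def evl (Q : Fin 12 → Fin 3 → ℂ) (d : ℕ) :
    homogeneousSubmodule (Fin 3) ℂ d →ₗ[ℂ] (Fin 12 → ℂ) :=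
  (LinearMap.pi fun i => (aeval (Q i)).toLinearMap).domRestrict _

theorem evl_apply (Q : Fin 12 → Fin 3 → ℂ) (d : ℕ) (f : homogeneousSubmodule (Fin 3) ℂ d)
    (i : Fin 12) : evl Q d f i = eval (Q i) (f : S) := by
  exact RingHom.congr_fun (coe_aeval_eq_eval (Q i)) (f : S)

theorem evl_surj {Q : Fin 12 → Fin 3 → ℂ} (hne : ∀ i, Q i ≠ 0)
    (hdiff : ∀ i j, i ≠ j → ∀ t : ℂ, Q i ≠ t • Q j) {d : ℕ} (hd : 11 ≤ d) :
    Function.Surjective (evl Q d) := by
  choose f hf using fun i => exists_form hne hdiff hd i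
  intro y
  refine ⟨∑ i, (y i / eval (Q i) (f i)) •
    (⟨f i, (mem_homogeneousSubmodule _ _).2 (hf i).1⟩ : homogeneousSubmodule (Fin 3) ℂ d), ?_⟩
  funext j
  rw [map_sum, Finset.sum_apply, Finset.sum_eq_single j]
  · rw [map_smul, Pi.smul_apply, evl_apply, smul_eq_mul, div_mul_cancel₀ _ (hf j).2.2]
  · intro i _ hij
    rw [map_smul, Pi.smul_apply, evl_apply, smul_eq_mul]
    rw [(hf i).2.1 j (Ne.symm hij), mul_zero]
  · intro h
    exact absurd (Finset.mem_univ j) h

theorem finrank_ker_evl {Q : Fin 12 → Fin 3 → ℂ} (hne : ∀ i, Q i ≠ 0)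
    (hdiff : ∀ i j, i ≠ j → ∀ t : ℂ, Q i ≠ t • Q j) {d : ℕ} (hd : 11 ≤ d) :
    12 + Module.finrank ℂ (LinearMap.ker (evl Q d)) = (d + 2).choose 2 := by
  have h1 := LinearMap.finrank_range_add_finrank_ker (evl Q d)
  rw [LinearMap.range_eq_top.2 (evl_surj hne hdiff hd), finrank_top, Module.finrank_fin_fun,
    finrank_hom] at h1
  exact h1

/-- The map `(a, b) ↦ a F + b g`. -/
noncomputable def phi {F g : S} (hF : F.IsHomogeneous 3) (hg : g.IsHomogeneous 4) {d : ℕ}
    (hd : 11 ≤ d) :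
    (homogeneousSubmodule (Fin 3) ℂ (d - 3) × homogeneousSubmodule (Fin 3) ℂ (d - 4)) →ₗ[ℂ]
      homogeneousSubmodule (Fin 3) ℂ d where
  toFun x := ⟨(x.1 : S) * F + (x.2 : S) * g, by
    have h1 := ((mem_homogeneousSubmodule _ _).1 x.1.2).mul hF
    have h2 := ((mem_homogeneousSubmodule _ _).1 x.2.2).mul hg
    rw [show d - 3 + 3 = d by omega] at h1
    rw [show d - 4 + 4 = d by omega] at h2
    exact (mem_homogeneousSubmodule _ _).2 (h1.add h2)⟩
  map_add' x y := by
    apply Subtype.ext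
    simp only [Prod.fst_add, Prod.snd_add, Submodule.coe_add]
    ring
  map_smul' c x := by
    apply Subtype.ext
    simp only [Prod.smul_fst, Prod.smul_snd, Submodule.coe_smul, RingHom.id_apply, smul_eq_C_mul]
    ring

/-- The map `c ↦ (c g, - c F)`. -/
noncomputable def psi {F g : S} (hF : F.IsHomogeneous 3) (hg : g.IsHomogeneous 4) {d : ℕ}
    (hd : 11 ≤ d) :
    homogeneousSubmodule (Fin 3) ℂ (d - 7) →ₗ[ℂ]
    (homogeneousSubmodule (Fin 3) ℂ (d - 3) × homogeneousSubmodule (Fin 3) ℂ (d - 4)) where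
  toFun c := (⟨(c : S) * g, by
      have h1 := ((mem_homogeneousSubmodule _ _).1 c.2).mul hg
      rw [show d - 7 + 4 = d - 3 by omega] at h1
      exact (mem_homogeneousSubmodule _ _).2 h1⟩, ⟨-((c : S) * F), by
      have h1 := ((mem_homogeneousSubmodule _ _).1 c.2).mul hF
      rw [show d - 7 + 3 = d - 4 by omega] at h1
      exact Submodule.neg_mem _ ((mem_homogeneousSubmodule _ _).2 h1)⟩)
  map_add' x y := by
    refine Prod.ext (Subtype.ext ?_) (Subtype.ext ?_)
    · simp only [Prod.fst_add, Submodule.coe_add]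
      ring
    · simp only [Prod.snd_add, Submodule.coe_add]
      ring
  map_smul' c x := by
    refine Prod.ext (Subtype.ext ?_) (Subtype.ext ?_)
    · simp only [Prod.smul_fst, Submodule.coe_smul, RingHom.id_apply, smul_eq_C_mul]
      ring
    · simp only [Prod.smul_snd, Submodule.coe_smul, RingHom.id_apply, smul_eq_C_mul]
      ring

theorem hom_factor {F c : S} (hF : F.IsHomogeneous 3) (hF0 : F ≠ 0) {n : ℕ}
    (h : (c * F).IsHomogeneous (n + 3)) : c.IsHomogeneous n := by
  have h1 : homogeneousComponent (n + 3) (c * F) = homogeneousComponent n c * F := by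
    conv_lhs => rw [← sum_homogeneousComponent c, Finset.sum_mul, map_sum]
    have h2 : ∀ k ∈ Finset.range (c.totalDegree + 1),
        homogeneousComponent (n + 3) (homogeneousComponent k c * F) =
        if k = n then homogeneousComponent n c * F else 0 := by
      intro k _
      rw [homogeneousComponent_of_mem ((mem_homogeneousSubmodule _ _).2
        ((homogeneousComponent_isHomogeneous k c).mul hF))]
      by_cases hk : k = n
      · subst hk
        simp
      · rw [if_neg hk, if_neg]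
        omega
    rw [Finset.sum_congr rfl h2, Finset.sum_ite_eq']
    split_ifs with h3
    · rfl
    · rw [homogeneousComponent_eq_zero, zero_mul]
      rw [Finset.mem_range] at h3
      omega
  have h2 : homogeneousComponent (n + 3) (c * F) = c * F := by
    rw [homogeneousComponent_of_mem ((mem_homogeneousSubmodule _ _).2 h), if_pos rfl]
  rw [h2] at h1
  have h3 := mul_right_cancel₀ hF0 h1
  rw [h3]
  exact homogeneousComponent_isHomogeneous n c

theorem ker_phi_le {F g : S} (hF : F.IsHomogeneous 3) (hg : g.IsHomogeneous 4)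
    (hirr : Irreducible F) (hndvd : ¬ F ∣ g) {d : ℕ} (hd : 11 ≤ d) :
    LinearMap.ker (phi hF hg hd) ≤ LinearMap.range (psi hF hg hd) := by
  rintro ⟨⟨a, ha⟩, ⟨b, hb⟩⟩ hab
  rw [LinearMap.mem_ker] at hab
  have h1 : a * F + b * g = 0 := congrArg Subtype.val hab
  have hp : Prime F := hirr.prime
  have h2 : F ∣ b * g := ⟨-a, by linear_combination h1⟩
  rcases hp.dvd_or_dvd h2 with h3 | h3
  · obtain ⟨c, hc⟩ := h3
    have h4 : ((-c) * F).IsHomogeneous (d - 7 + 3) := by
      rw [show d - 7 + 3 = d - 4 by omega]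
      have h5 : -c * F = -b := by rw [hc]; ring
      rw [h5]
      exact ((mem_homogeneousSubmodule _ _).1 hb).neg
    have h5 := hom_factor hF hp.ne_zero h4
    refine ⟨⟨-c, (mem_homogeneousSubmodule _ _).2 h5⟩, ?_⟩
    refine Prod.ext (Subtype.ext ?_) (Subtype.ext ?_)
    · change -c * g = a
      apply mul_right_cancel₀ hp.ne_zero
      rw [hc] at h1
      linear_combination -h1
    · change -(-c * F) = b
      rw [hc]
      ring
  · exact absurd h3 hndvd

theorem le_range_phi {F g : S} (hF : F.IsHomogeneous 3) (hg : g.IsHomogeneous 4)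
    (hirr : Irreducible F) (hndvd : ¬ F ∣ g) {d : ℕ} (hd : 11 ≤ d) :
    (d + 2).choose 2 ≤ 12 + Module.finrank ℂ (LinearMap.range (phi hF hg hd)) := by
  have h1 := LinearMap.finrank_range_add_finrank_ker (phi hF hg hd)
  have h2 := Submodule.finrank_mono (ker_phi_le hF hg hirr hndvd hd)
  have h3 := LinearMap.finrank_range_le (psi hF hg hd)
  rw [Module.finrank_prod, finrank_hom, finrank_hom] at h1
  rw [finrank_hom] at h3
  obtain ⟨t, ht, ht6⟩ : ∃ t, d = t + 5 ∧ 6 ≤ t := ⟨d - 5, by omega, by omega⟩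
  have e1 : d - 3 + 2 = t + 1 + 1 + 1 + 1 := by omega
  have e2 : d - 4 + 2 = t + 1 + 1 + 1 := by omega
  have e3 : d - 7 + 2 = t := by omega
  have e4 : d + 2 = t + 1 + 1 + 1 + 1 + 1 + 1 + 1 := by omega
  rw [e1, e2] at h1
  rw [e3] at h3
  rw [e4]
  have hs : ∀ n : ℕ, (n + 1).choose 2 = n + n.choose 2 := fun n => by
    rw [Nat.choose_succ_succ' n 1, Nat.choose_one_right]
  rw [hs, hs, hs, hs] at h1
  rw [hs, hs, hs, hs, hs, hs, hs]
  have h4 := hs t
  omega

/-- Forms of degree at least eleven which vanish at the twelve points are in `(F, g)`. -/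
theorem BEZ : S_BEZ := by
  intro F g Q hT d h hd hh hz
  have h1 : LinearMap.range (phi hT.hF hT.hg hd) ≤ LinearMap.ker (evl Q d) := by
    rintro _ ⟨x, rfl⟩
    rw [LinearMap.mem_ker]
    funext i
    rw [evl_apply]
    change eval (Q i) ((x.1 : S) * F + (x.2 : S) * g) = 0
    rw [map_add, map_mul, map_mul, hT.zeroF, hT.zerog, mul_zero, mul_zero, add_zero]
  have h2 := finrank_ker_evl hT.ne hT.diff hd
  have h3 := le_range_phi hT.hF hT.hg hT.irr hT.ndvd hd
  have h4 := Submodule.eq_of_le_of_finrank_le h1 (by omega)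
  have h5 : (⟨h, (mem_homogeneousSubmodule _ _).2 hh⟩ : homogeneousSubmodule (Fin 3) ℂ d) ∈
      LinearMap.range (phi hT.hF hT.hg hd) := by
    rw [h4, LinearMap.mem_ker]
    funext i
    rw [evl_apply]
    exact hz i
  obtain ⟨x, hx⟩ := h5
  exact ⟨x.1, x.2, (congrArg Subtype.val hx).symm⟩

end Pool.Agent.H549.MX
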